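import Pool.Agent.Helper27.Tri.Final

/-!
# MP_b67006_nt: the congruences for all primes

For every prime `p > 3`: the congruences of the problem for `S_p` and for the sum `S'_p` with
upper summation limit `(p - 1) / 2`; for the printed sum `S'_p` (upper limit `p - 1`) part (b) and
part (a) modulo `p`.
-/

open H27Tri Finset

namespace Pool.Agent.Results.MP_b67006_nt.HalfSums

theorem result (p : ℕ) (hp : p.Prime) (hp3 : 3 < p) :
    (p % 3 = 1 → ∀ x y : ℤ, (p : ℤ) = x ^ 2 + 3 * y ^ 2 → x % 3 = 1 →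
      CongMod p 2 (S p)
          ((-1) ^ ((p - 1) / 2) * (2 * (x : ℚ) - (p : ℚ) / (2 * (x : ℚ)))) ∧
        CongMod p 2 (S'half p)
          ((-1) ^ ((p - 1) / 2) * (2 * (x : ℚ) - (p : ℚ) / (2 * (x : ℚ)))) ∧
        CongMod p 1 (S' p)
          ((-1) ^ ((p - 1) / 2) * (2 * (x : ℚ) - (p : ℚ) / (2 * (x : ℚ))))) ∧
    (p % 3 = 2 → CongMod p 1 (S p) 0 ∧ CongMod p 1 (S' p) 0 ∧ CongMod p 1 (S'half p) 0) := by
  have : Fact p.Prime := ⟨hp⟩
  obtain ⟨n, hn⟩ : ∃ n, p = 2 * n + 1 := by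
    rcases hp.eq_two_or_odd' with h | ⟨n, hn⟩
    · omega
    · exact ⟨n, hn⟩
  constructor
  · intro h1 x y hxy hx3
    obtain ⟨v1, v2⟩ := cn_values p n (p / 3) (p / 6) hn (by omega) (by omega) (by omega) x y hxy hx3
    obtain ⟨a1, _⟩ := final_one p n hn hp3 2 3 x y hxy v1
    obtain ⟨b1, b2⟩ := final_one p n hn hp3 4 (-3) x y hxy v2
    exact ⟨a1, b1, b2⟩
  · intro h2
    obtain ⟨a1, _⟩ := final_two p n hn (by omega) 2 3 (c23_mod_two p n hn (by omega) h2)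
    obtain ⟨b1, b2⟩ := final_two p n hn (by omega) 4 (-3) (c43_mod_two p n hn (by omega) h2)
    exact ⟨a1, b2, b1⟩

end Pool.Agent.Results.MP_b67006_nt.HalfSums
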