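import Pool.Agent.Helper27.Tri.Trinom

/-!
# MP_b67006_nt: the statement as printed fails at `p = 7`

With the printed upper summation limit `p - 1` in `S'_p`, the congruence for `S'_p` modulo
`p ^ 2` fails for `p = 7 = (-2) ^ 2 + 3 * 1 ^ 2`.
-/

open H27Tri Finset

namespace Pool.Agent.Results.MP_b67006_nt.PrintedRangeFails

theorem result : ∃ p : ℕ, p.Prime ∧ 3 < p ∧ p % 3 = 1 ∧
      ∃ x y : ℤ, (p : ℤ) = x ^ 2 + 3 * y ^ 2 ∧ x % 3 = 1 ∧
        ¬ CongMod p 2 (S' p) ((-1) ^ ((p - 1) / 2) * (2 * (x : ℚ) - (p : ℚ) / (2 * (x : ℚ)))) := by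
  refine ⟨7, by norm_num, by norm_num, by norm_num, -2, 1, by norm_num, by norm_num, ?_⟩
  have h0 := trinom_zero 4 (-3)
  have h1 := trinom_one 4 (-3)
  have h2 := trinom_rec 4 (-3) 0
  norm_num [h0, h1] at h2
  have h2' : trinom 2 4 (-3) = 10 := by linarith
  have h3 := trinom_rec 4 (-3) 1
  norm_num [h2', h1] at h3
  have h3' : trinom 3 4 (-3) = -8 := by linarith
  have h4 := trinom_rec 4 (-3) 2
  norm_num [h3', h2'] at h4
  have h4' : trinom 4 4 (-3) = -266 := by linarith
  have h5 := trinom_rec 4 (-3) 3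
  norm_num [h3', h4'] at h5
  have h5' : trinom 5 4 (-3) = -1736 := by linarith
  have h6 := trinom_rec 4 (-3) 4
  norm_num [h5', h4'] at h6
  have h6' : trinom 6 4 (-3) = -6524 := by linarith
  have h7 := trinom_rec 4 (-3) 5
  norm_num [h5', h6'] at h7
  have h7' : trinom 7 4 (-3) = -6800 := by linarith
  have h8 := trinom_rec 4 (-3) 6
  norm_num [h7', h6'] at h8
  have h8' : trinom 8 4 (-3) = 108838 := by linarith
  have h9 := trinom_rec 4 (-3) 7
  norm_num [h7', h8'] at h9
  have h9' : trinom 9 4 (-3) = 991576 := by linarith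
  have h10 := trinom_rec 4 (-3) 8
  norm_num [h9', h8'] at h10
  have h10' : trinom 10 4 (-3) = 4793260 := by linarith
  have h11 := trinom_rec 4 (-3) 9
  norm_num [h9', h10'] at h11
  have h11' : trinom 11 4 (-3) = 11362960 := by linarith
  have h12 := trinom_rec 4 (-3) 10
  norm_num [h11', h10'] at h12
  have h12' : trinom 12 4 (-3) = -35910980 := by linarith
  have hS : S' 7 = -781639815 / 1048576 := by
    unfold S'
    simp only [Finset.sum_range_succ, Finset.sum_range_zero]
    norm_num [h0, h2', h4', h6', h8', h10', h12', Nat.choose]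
  have hd : S' 7 - ((-1) ^ ((7 - 1) / 2) * (2 * ((-2 : ℤ) : ℚ) - ((7 : ℕ) : ℚ) / (2 * ((-2 : ℤ) : ℚ))))
      = (7 : ℚ) * (-(111999873 : ℕ) / (1048576 : ℕ)) := by
    rw [hS]; norm_num
  have : Fact (Nat.Prime 7) := ⟨by norm_num⟩
  intro hc
  rcases hc with hc | hc
  · rw [← sub_eq_zero, hd] at hc
    norm_num at hc
  · rw [hd, padicValRat.mul (by norm_num) (by norm_num), padicValRat.div (by norm_num) (by norm_num),
      padicValRat.neg, padicValRat.of_nat, padicValRat.of_nat,
      padicValNat.eq_zero_of_not_dvd (by norm_num : ¬ 7 ∣ 111999873),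
      padicValNat.eq_zero_of_not_dvd (by norm_num : ¬ 7 ∣ 1048576)] at hc
    have h7 : padicValRat 7 (7 : ℚ) = 1 := by
      have := padicValRat.self (p := 7) (by norm_num)
      simpa using this
    rw [h7] at hc
    norm_num at hc

end Pool.Agent.Results.MP_b67006_nt.PrintedRangeFails
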